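import Pool.Agent.R154.FV.MainV

set_option autoImplicit false

namespace Pool.Agent.Results.MP_f6c7cf_nt.LogSquared

/-- For every `ε > 0` there is `c > 0` such that every large odd `n` which is not divisible by the square of a prime
`l` with `c log n < l ≤ (log n) ^ 2` has at least `n ^ (1 - ε)` quadruples with `n = x² + y² + z² + 4w²` for which every
prime factor `q ≤ c (log n) ^ 2` of `2^x + 2^y + 2^z + 1` is odd and exceptional: `l²` divides the order of `2` modulo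
`q` for a prime `l ≥ 5` that divides `(3n-2)(9n-2)`, or `3` divides this order, where the second case does not occur
for `q = 7`, nor if `3 ∣ n` or `n ≡ 13 mod 32`. -/
theorem result : ∀ ε : ℝ, 0 < ε → ∃ c : ℝ, 0 < c ∧ ∃ n₀ : ℕ, ∀ n : ℕ, n₀ ≤ n → Odd n →
    (∀ l : ℕ, l.Prime → c * Real.log n < l → (l : ℝ) ≤ (Real.log n) ^ 2 → ¬ l ^ 2 ∣ n) →
    ∃ S : Finset (ℕ × ℕ × ℕ × ℕ), (n : ℝ) ^ (1 - ε) ≤ (S.card : ℝ) ∧
      ∀ x y z w : ℕ, (x, y, z, w) ∈ S → n = x ^ 2 + y ^ 2 + z ^ 2 + 4 * w ^ 2 ∧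
        ∀ q : ℕ, q.Prime → q ∣ 2 ^ x + 2 ^ y + 2 ^ z + 1 → (q : ℝ) ≤ c * (Real.log n) ^ 2 →
          q ≠ 2 ∧
          ((∃ l : ℕ, l.Prime ∧ 5 ≤ l ∧ l ^ 2 ∣ orderOf (2 : ZMod q) ∧
              (l : ℤ) ∣ (3 * n - 2) * (9 * n - 2)) ∨
            (¬ 3 ∣ n ∧ n % 32 ≠ 13 ∧ q ≠ 7 ∧ 3 ∣ orderOf (2 : ZMod q))) :=
  fun ε hε => Pool.Agent.R154.FV.mainV ε hε

end Pool.Agent.Results.MP_f6c7cf_nt.LogSquared
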