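import Pool.Agent.R154.FS.Four

namespace Pool.Agent.Results.MP_f6c7cf_nt.PowerRange

/-- For every `ε > 0` there is `c > 0` such that for all `1 ≤ B ≤ √X/8` at least `c·X^(1-ε)/B` odd
numbers `n ≤ X` are of the form `x²+y²+z²+4w²` with all prime factors of `2^x+2^y+2^z+1` larger
than `B`. -/
theorem result (ε : ℝ) (hε : 0 < ε) : ∃ c : ℝ, 0 < c ∧ ∀ X : ℕ, ∀ B : ℝ, 1 ≤ B → B ≤ √(X : ℝ) / 8 →
    c * (X : ℝ) ^ (1 - ε) / B ≤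
      (Set.ncard {n : ℕ | n ≤ X ∧ Odd n ∧ ∃ x y z w : ℕ, n = x ^ 2 + y ^ 2 + z ^ 2 + 4 * w ^ 2 ∧
        ∀ q : ℕ, q.Prime → q ∣ 2 ^ x + 2 ^ y + 2 ^ z + 1 → B < q} : ℝ) :=
  Pool.Agent.R154.FS.Four.main ε hε

end Pool.Agent.Results.MP_f6c7cf_nt.PowerRange
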