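import Mathlib
import Pool.Agent.R494.SPL4

set_option autoImplicit false

/-!
# The question in random models of the primes

The question is whether every odd `n` is of the form `x² + y² + z² + 4w²` with natural numbers such
that `2 ^ x + 2 ^ y + 2 ^ z + 1` is prime.  We give an asymptotic law for the number of quadruples, for
all `n`, in EVERY sequential random model of the primes: the integers are decided one after the
other, only integers coprime to a fixed `Q` can be chosen, and the conditional probability of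
choosing `n + 1` (coprime to `Q`) given the past is asymptotic to `(Q / φ(Q)) / log n`.  No
independence is assumed.  If all prime factors of `Q` are at most `11` (for example `Q = 1`,
Cramér's model) then all large odd `n` have more than `n ^ (1/2 - ε)` quadruples; for every other
`Q` the same holds for all large odd `n` in explicit residue classes.
-/

open MeasureTheory Filter
open scoped Topology

namespace Pool.Agent.Results.MP_f6c7cf_nt.SievedModels

/-- the quadruples of natural numbers with `n = x² + y² + z² + 4w²` for which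
`2 ^ x + 2 ^ y + 2 ^ z + 1` belongs to `S` -/
def reps (S : Set ℕ) (n : ℕ) : Set (ℕ × ℕ × ℕ × ℕ) :=
  {v | n = v.1 ^ 2 + v.2.1 ^ 2 + v.2.2.1 ^ 2 + 4 * v.2.2.2 ^ 2 ∧
    2 ^ v.1 + 2 ^ v.2.1 + 2 ^ v.2.2.1 + 1 ∈ S}

/-- the sum of `(Q / φ(Q)) / log N` over the quadruples for which `N = 2 ^ x + 2 ^ y + 2 ^ z + 1` is
coprime to `Q` -/
noncomputable def expected (Q n : ℕ) : ℝ :=
  ∑ᶠ v ∈ reps {k : ℕ | Nat.Coprime k Q} n, ((Q : ℝ) / Nat.totient Q) /
    Real.log (((2 ^ v.1 + 2 ^ v.2.1 + 2 ^ v.2.2.1 + 1 : ℕ) : ℝ))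

/-- for every odd prime factor `q` of `Q`, with `t` the order of `2` modulo `q`: no prime `l ≥ 5` with
`l² ∣ t` divides `(3n - 2)(9n - 2)`; and if `3 ∣ t` then `q = 7` or `3 ∣ n` or `n ≡ 13 mod 32` -/
def Regular (Q n : ℕ) : Prop :=
  ∀ q : ℕ, q.Prime → q ∣ Q → q ≠ 2 →
    (∀ l : ℕ, l.Prime → 5 ≤ l → l ^ 2 ∣ orderOf (2 : ZMod q) → ¬ (l : ℤ) ∣ (3 * n - 2) * (9 * n - 2)) ∧
    (3 ∣ orderOf (2 : ZMod q) → q = 7 ∨ 3 ∣ n ∨ n % 32 = 13)

open Pool.Agent.R494.SPL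

open Classical in
lemma reps_eq (S : Set ℕ) (n : ℕ) :
    reps S n = (((quad3 n).filter (fun v => val3 v ∈ S) : Finset (ℕ × ℕ × ℕ × ℕ)) : Set (ℕ × ℕ × ℕ × ℕ)) := by
  ext v
  rw [Finset.mem_coe, Finset.mem_filter, mem_quad3]
  rfl

lemma reps_chosen {Ω : Type} {A : ℕ → Set Ω} (ω : Ω) (n : ℕ) :
    ((reps {k : ℕ | ω ∈ A k} n).ncard : ℝ) = ∑ v ∈ quad3 n, Pool.Agent.R528.RM.In A (val3 v) ω := by
  classical
  rw [reps_eq, Set.ncard_coe_finset, Finset.card_filter]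
  push_cast
  refine Finset.sum_congr rfl fun v _ => ?_
  unfold Pool.Agent.R528.RM.In
  by_cases h : ω ∈ A (val3 v)
  · simp [h]
  · simp [h]

lemma expected_eq (Q n : ℕ) : expected Q n = ∑ v ∈ quad3 n, wt Q v := by
  classical
  unfold expected
  rw [reps_eq, finsum_mem_coe_finset, Finset.sum_filter]
  refine Finset.sum_congr rfl fun v hv => ?_
  unfold wt
  by_cases hc : Nat.Coprime (val3 v) Q
  · have hmem : val3 v ∈ {k : ℕ | Nat.Coprime k Q} := hc
    rw [if_pos hmem, if_pos hc]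
    rfl
  · have hmem : ¬ val3 v ∈ {k : ℕ | Nat.Coprime k Q} := hc
    rw [if_neg hmem, if_neg hc]

lemma regular_small (Q : ℕ) (h : ∀ q : ℕ, q.Prime → q ∣ Q → q ≤ 11) (n : ℕ) : Regular Q n := by
  intro q hq hqQ hq2
  have : Fact q.Prime := ⟨hq⟩
  have h20 : (2 : ZMod q) ≠ 0 := by
    intro h0
    have h3 : ((2 : ℕ) : ZMod q) = 0 := by exact_mod_cast h0
    rw [ZMod.natCast_eq_zero_iff] at h3
    exact hq2 ((Nat.prime_dvd_prime_iff_eq hq Nat.prime_two).1 h3)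
  have h1 := ZMod.orderOf_dvd_card_sub_one h20
  have h11 := h q hq hqQ
  have hq3 : 2 < q := lt_of_le_of_ne hq.two_le (Ne.symm hq2)
  constructor
  · intro l hl hl5 hll
    exfalso
    have h4 := Nat.le_of_dvd (by omega) (hll.trans h1)
    have h5 : 5 ^ 2 ≤ l ^ 2 := Nat.pow_le_pow_left hl5 2
    omega
  · intro h3
    left
    have h4 := h3.trans h1
    have h5 : q = 3 ∨ q = 5 ∨ q = 7 ∨ q = 11 := by
      interval_cases q <;> first | omega | (exfalso; revert hq; decide)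
    omega

end Pool.Agent.Results.MP_f6c7cf_nt.SievedModels

open Pool.Agent.Results.MP_f6c7cf_nt.SievedModels

/-- Let `A n` be the event that `n` belongs to a random set adapted to a filtration `ℱ`, let
`Q ≥ 1`, let no integer which is not coprime to `Q` be chosen, and let the conditional probability of
`A (n + 1)` given `ℱ n`, times `log n`, tend to `Q / φ(Q)` along the `n` with `n + 1` coprime to `Q`,
almost surely.  Let `R(n)` be the number of quadruples of natural numbers with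
`n = x² + y² + z² + 4w²` for which `2 ^ x + 2 ^ y + 2 ^ z + 1` is chosen.  (1) Almost surely, for every
`η > 0` there is `K` with `|R(n) - expected Q n| ≤ η expected Q n + K (log n)³` for all large `n`.
(2) For every `ε > 0`, `expected Q n ≥ n ^ (1/2 - ε)` for all large odd `n` regular for `Q`.
(3) Almost surely, for every `ε > 0`, `R(n) ≥ n ^ (1/2 - ε)` for all large odd `n` regular for `Q`.
(4) If all prime factors of `Q` are at most `11` then all `n` are regular for `Q`. -/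
theorem Pool.Agent.Results.MP_f6c7cf_nt.SievedModels.result
    {Ω : Type} [mΩ : MeasurableSpace Ω] (μ : Measure Ω) [IsProbabilityMeasure μ]
    (ℱ : Filtration ℕ mΩ) (A : ℕ → Set Ω) (hA : ∀ n, MeasurableSet[ℱ n] (A n))
    (Q : ℕ) (hQ : 0 < Q) (hcop : ∀ n, ¬ Nat.Coprime n Q → A n = ∅)
    (hd : ∀ᵐ ω ∂μ, Tendsto (fun n : ℕ =>
      (μ[(A (n + 1)).indicator (fun _ => (1 : ℝ)) | ℱ n]) ω * Real.log n)
      (atTop ⊓ 𝓟 {n : ℕ | Nat.Coprime (n + 1) Q}) (𝓝 ((Q : ℝ) / Nat.totient Q))) :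
    (∀ᵐ ω ∂μ, ∀ η : ℝ, 0 < η → ∃ K : ℝ, ∀ᶠ n : ℕ in atTop,
      |((reps {k : ℕ | ω ∈ A k} n).ncard : ℝ) - expected Q n| ≤
        η * expected Q n + K * Real.log n ^ 3) ∧
    (∀ ε : ℝ, 0 < ε → ∀ᶠ n : ℕ in atTop, Odd n → Regular Q n →
      (n : ℝ) ^ (1 / 2 - ε) ≤ expected Q n) ∧
    (∀ᵐ ω ∂μ, ∀ ε : ℝ, 0 < ε → ∀ᶠ n : ℕ in atTop, Odd n → Regular Q n →
      (n : ℝ) ^ (1 / 2 - ε) ≤ (reps {k : ℕ | ω ∈ A k} n).ncard) ∧
    ((∀ q : ℕ, q.Prime → q ∣ Q → q ≤ 11) → ∀ n : ℕ, Regular Q n) := by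
  have h1 : ∀ ε : ℝ, 0 < ε → ∀ᶠ n : ℕ in atTop, Odd n → Regular Q n →
      (n : ℝ) ^ (1 / 2 - ε) ≤ expected Q n := by
    intro ε hε
    filter_upwards [Pool.Agent.R494.SPL.low_E3 ε hε Q hQ] with n g1 hn hr
    rw [expected_eq]
    exact g1 hn hr
  have h2 : ∀ᵐ ω ∂μ, ∀ η : ℝ, 0 < η → ∃ K : ℝ, ∀ᶠ n : ℕ in atTop,
      |((reps {k : ℕ | ω ∈ A k} n).ncard : ℝ) - expected Q n| ≤
        η * expected Q n + K * Real.log n ^ 3 := by
    filter_upwards [Pool.Agent.R494.SPL.law3 (μ := μ) (ℱ := ℱ) hA Q hQ hcop hd] with ω hω η hη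
    obtain ⟨K, hK⟩ := hω η hη
    refine ⟨K, ?_⟩
    filter_upwards [hK] with n g1
    rw [expected_eq, reps_chosen]
    exact g1
  refine ⟨h2, h1, ?_, regular_small Q⟩
  filter_upwards [h2] with ω hω ε hε
  obtain ⟨K, hK⟩ := hω (1 / 2) (by norm_num)
  set e : ℝ := min ε (1 / 4) with he
  have he0 : 0 < e := lt_min hε (by norm_num)
  have he2 : e ≤ 1 / 4 := min_le_right _ _
  have e7 : ∀ᶠ n : ℕ in atTop, 4 ≤ (n : ℝ) ^ (1 / 8 : ℝ) :=
    ((tendsto_rpow_atTop (by positivity)).comp tendsto_natCast_atTop_atTop).eventually_ge_atTop _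
  have e2 : ∀ᶠ n : ℕ in atTop, 4 ≤ (n : ℝ) ^ (e / 2) :=
    ((tendsto_rpow_atTop (by positivity)).comp tendsto_natCast_atTop_atTop).eventually_ge_atTop _
  have e3 := (isLittleO_log_rpow_rpow_atTop (3 : ℝ) (show (0 : ℝ) < 1 / 4 by norm_num)).bound
    (show (0 : ℝ) < 1 / (|K| + 1) by positivity)
  filter_upwards [hK, h1 (e / 2) (by positivity), e2, tendsto_natCast_atTop_atTop.eventually e3, e7,
    eventually_ge_atTop 3] with n g1 g2 g3 g5 g7 g4 hn hr
  have hn1 : (1 : ℝ) ≤ n := by exact_mod_cast (by omega : 1 ≤ n)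
  have hn0 : (0 : ℝ) < n := by linarith
  have hl : 0 ≤ Real.log (n : ℝ) := Real.log_nonneg hn1
  have k1 := (abs_le.1 g1).1
  have k2 := g2 hn hr
  rw [Real.norm_eq_abs, Real.norm_eq_abs, abs_of_nonneg (Real.rpow_nonneg hl _),
    abs_of_nonneg (Real.rpow_nonneg hn0.le _)] at g5
  have e5 : Real.log n ^ (3 : ℝ) = Real.log n ^ (3 : ℕ) := by
    rw [← Real.rpow_natCast]; norm_num
  rw [e5] at g5
  have k3 : K * Real.log n ^ 3 ≤ (n : ℝ) ^ (1 / 4 : ℝ) := by
    calc K * Real.log n ^ 3 ≤ (|K| + 1) * Real.log n ^ 3 := by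
          apply mul_le_mul_of_nonneg_right _ (by positivity)
          have := le_abs_self K
          linarith
      _ ≤ (|K| + 1) * (1 / (|K| + 1) * (n : ℝ) ^ (1 / 4 : ℝ)) := by gcongr
      _ = _ := by field_simp
  have k4 : (n : ℝ) ^ (1 / 2 - e / 2) = (n : ℝ) ^ (1 / 2 - e) * (n : ℝ) ^ (e / 2) := by
    rw [← Real.rpow_add hn0]
    congr 1
    ring
  have k5 : (n : ℝ) ^ (1 / 2 - e) * 4 ≤ (n : ℝ) ^ (1 / 2 - e) * (n : ℝ) ^ (e / 2) :=
    mul_le_mul_of_nonneg_left g3 (by positivity)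
  have k6 : (n : ℝ) ^ (1 / 4 : ℝ) * 4 ≤ (n : ℝ) ^ (1 / 2 - e / 2) := by
    calc (n : ℝ) ^ (1 / 4 : ℝ) * 4 ≤ (n : ℝ) ^ (1 / 4 : ℝ) * (n : ℝ) ^ (1 / 8 : ℝ) := by gcongr
      _ = (n : ℝ) ^ (1 / 4 + 1 / 8 : ℝ) := by rw [← Real.rpow_add hn0]
      _ ≤ _ := Real.rpow_le_rpow_of_exponent_le hn1 (by linarith)
  have k7 : (n : ℝ) ^ (1 / 2 - ε) ≤ (n : ℝ) ^ (1 / 2 - e) := by
    apply Real.rpow_le_rpow_of_exponent_le hn1
    have := min_le_left ε (1 / 4 : ℝ)
    linarith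
  rw [← k4] at k5
  linarith
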