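import Pool.Agent.R330.AF.Main

namespace Pool.Agent.Results.MP_f6c7cf_nt.SquareRootBarrier

/-- There are `c > 0` and `X₀` such that for all `X ≥ X₀` at least `c·X/log X` odd numbers `n ≤ X`
are of the form `x²+y²+z²+4w²` with all prime factors of `2^x+2^y+2^z+1` larger than
`c·√X·log X`. -/
theorem result : ∃ c : ℝ, 0 < c ∧ ∃ X₀ : ℕ, ∀ X : ℕ, X₀ ≤ X →
    c * X / Real.log X ≤
      (Set.ncard {n : ℕ | n ≤ X ∧ Odd n ∧ ∃ x y z w : ℕ, n = x ^ 2 + y ^ 2 + z ^ 2 + 4 * w ^ 2 ∧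
        ∀ q : ℕ, q.Prime → q ∣ 2 ^ x + 2 ^ y + 2 ^ z + 1 → c * √(X : ℝ) * Real.log X < q} : ℝ) :=
  Pool.Agent.R330.AF.main

end Pool.Agent.Results.MP_f6c7cf_nt.SquareRootBarrier
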